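import Mathlib
import Pool.Agent.Helper831.SemiRiem
import Pool.Agent.N525.Sol.Main

set_option maxSynthPendingDepth 3

/-!
# A closed Lorentzian 3-manifold without closed geodesics

The manifold is `Γ \ Sol`, where `Sol` is `ℝ³` with the multiplication
`(p, q, z) (p', q', z') = (p + e^{cz} p', q + e^{-cz} q', z + z')`, `e^c = φ²`, `φ` the golden
ratio, and `Γ = {(a + b φ, a + b ψ, k)}`, `a`, `b`, `k` integers, is a cocompact lattice (the
manifold is the mapping torus of the matrix `(2 1; 1 1)`). The metric is the left invariant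
Lorentzian metric `- e^{-2cz} dp² + 2 e^{cz} dq dz`.

With `X = e^{-cz} p'`, `Y = e^{cz} q'`, `Z = z'` the equations of the geodesics are
`X' = c Z X`, `Z' = - c Z²`, `Y' = c (X² + Y Z)`. If the geodesic is periodic, so are `X`, `Y`, `Z`,
hence `Z = 0` (as `Z' ≤ 0`), then `X = 0` (as `Y' = c X² ≥ 0`), and the geodesic is a line in the
direction `∂_q`, which does not close up unless it is constant since `φ` is irrational.
-/

open scoped Manifold ContDiff Topology
open Pool.Agent.Helper831

namespace Pool.Agent.Results.MP_aba202_gt.NoClosedGeodesic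

/-- The metric `g` is Lorentzian, of signature `(+, -, …, -)`: at every point there is a vector `v`
with `g(v, v) > 0` such that `g` is negative definite on the orthogonal complement of `v`. -/
def IsLorentzian {E : Type} [NormedAddCommGroup E] [NormedSpace ℝ E]
    {M : Type} [TopologicalSpace M] [ChartedSpace E M] (g : SemiRiemannianMetric E M) : Prop :=
  ∀ x : M, ∃ v : TangentSpace 𝓘(ℝ, E) x, 0 < g.form x v v ∧
    ∀ w : TangentSpace 𝓘(ℝ, E) x, g.form x v w = 0 → w ≠ 0 → g.form x w w < 0

/-- There is a closed connected smooth manifold `M` of dimension three with a smooth Lorentzian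
metric such that every periodic geodesic `γ : ℝ → M` is constant. In particular there is no smooth
embedding of a circle in `M` which is a geodesic. -/
theorem result : ∃ (M : Type) (_ : TopologicalSpace M) (_ : ChartedSpace (ℝ × ℝ × ℝ) M)
    (_ : IsManifold 𝓘(ℝ, ℝ × ℝ × ℝ) ∞ M) (_ : CompactSpace M) (_ : T2Space M)
    (_ : SecondCountableTopology M) (_ : ConnectedSpace M)
    (g : SemiRiemannianMetric (ℝ × ℝ × ℝ) M),
    IsLorentzian g ∧
      ∀ (γ : ℝ → M) (L : ℝ), 0 < L → g.IsGeodesic γ → (∀ t : ℝ, γ (t + L) = γ t) →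
        ∀ s t : ℝ, γ s = γ t :=
  ⟨Pool.Agent.N525.Sol.SolMfd, inferInstance, inferInstance, inferInstance, inferInstance,
    inferInstance, ChartedSpace.secondCountable_of_sigmaCompact (ℝ × ℝ × ℝ) _, inferInstance,
    Pool.Agent.N525.Sol.solMetric, Pool.Agent.N525.Sol.solMetric_lorentzian,
    fun _ _ hL hγ hper s t => Pool.Agent.N525.Sol.periodic_const hγ hL hper s t⟩

end Pool.Agent.Results.MP_aba202_gt.NoClosedGeodesic
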